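import Mathlib
import Pool.Agent.KS6_46.PN.Random
import Pool.Agent.KS6_46.PN.Lower2
import Pool.Agent.KS6_46.PN.Ground

/-!
# The number of nowhere dense P-sets needed to cover `ω*` in a random extension

Let `𝔡` be the dominating number of the ground model. If `I` has more than `𝔡` elements, then the
random forcing `𝔹(I)` forces that `ω*` is covered by `𝔡⁺` nowhere dense P-sets, however large `I`
and the continuum of the extension are; `ℵ₁` nowhere dense sets are never enough. In particular,
if CH holds in the ground model and `2 ≤ l < ω`, then `𝔹(ω_l)` forces that the least number of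
nowhere dense P-sets (and the least number of nowhere dense sets) which cover `ω*` is exactly
`ℵ₂`; this answers Q1 in the negative for every `l`.

The forcing language and the sentence `Covered` are those of the library module
`Pool.Graph.R_seed8.TH773.PSet.Defs`; the sentences `CoveredBy Λ` and `CoveredByNwd Λ` are defined
in `Pool.Agent.KS6_46.PN.Defs`. The last part of the theorem says that for the trivial forcing they
are equivalent to the topological statements.

Proof. For a dominating family `D` of the ground model with `𝔡` members there are weights `m_g`,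
`g ∈ D`, which tend to `0`, have infinite sum and dominate all null sequences of the ground model;
choose `𝔡⁺` pairwise disjoint uncountable blocks of random reals. The cover consists of the P-sets
of the `𝔡` summable ideals of the weights `m_g` and of the P-sets of the ideals `K_a` which are
generated by the random sets which depend on the `a`-th block only and contain `k` with a
probability which tends to `0`. If an ultrafilter meets all the summable ideals, choose `e_g` in
the intersections; they depend on at most `𝔡` random reals, so all of them are independent of one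
of the blocks, and by the Borel-Cantelli lemma the ultrafilter is disjoint from the ideal of this
block. For the lower bound, a tower of length `ω₁` of names of infinite sets and a maximal centered
family of names which includes it give a name of an ultrafilter outside `ℵ₁` given nowhere dense
sets.
-/

set_option autoImplicit false

namespace Pool.Agent.Results.MP_deb3c6_lc.FewPSets

open Cardinal Pool.Agent.TH773.PSet Pool.Agent.KS6_46.PN

theorem covered_of_coveredBy {Λ P : Type} [Preorder P] {p : P} (h : p ∈ CoveredBy Λ P) :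
    p ∈ Covered P := by
  intro U
  rw [mem_fimp_reg (reg_isUltra U).1 (reg_fex _)]
  intro q hq hU
  refine mem_fex.2 fun r hr => ?_
  obtain ⟨s, hs, F, h1, h2⟩ := mem_fex.1 h r (hr.trans hq)
  have h3 := h2 U
  beta_reduce at h3
  rw [mem_fimp_reg (reg_isUltra U).1 (reg_fex _)] at h3
  obtain ⟨t, ht, i, hi⟩ := mem_fex.1 (h3 s le_rfl ((reg_isUltra U).1 _ hU _ (hs.trans hr))) s le_rfl
  obtain ⟨h4, h5, h6⟩ := h1 i
  exact ⟨t, ht.trans hs, F i, (reg_isFilter _).1 _ h4 _ ht, (reg_isP _).1 _ h5 _ ht,
    (reg_isNwd _).1 _ h6 _ ht, hi⟩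

theorem nonempty_random (I : Type) : Nonempty (Random I) :=
  ⟨⟨Set.univ, MeasurableSet.univ, by rw [MeasureTheory.measure_univ]; exact one_ne_zero⟩⟩

theorem result :
    (∀ I Λ : Type, 𝔡 < #I → 𝔡 < #Λ →
      Nonempty (Random I) ∧ ∀ p : Random I, p ∈ CoveredBy Λ (Random I)) ∧
    (∀ I Ξ : Type, #Ξ ≤ ℵ₁ → ∀ p : Random I, p ∉ CoveredByNwd Ξ (Random I)) ∧
    ((𝔠 : Cardinal.{0}) = ℵ₁ → ∀ l : ℕ, 2 ≤ l → ∀ I Λ : Type, #I = ℵ_ l → #Λ = ℵ_ 2 →
      ∀ p : Random I, p ∈ Covered (Random I) ∧ p ∈ CoveredBy Λ (Random I)) ∧
    (∀ Λ : Type, ∀ p : Unit, (p ∈ CoveredBy Λ Unit ↔ OmegaStarCoveredBy Λ) ∧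
      (p ∈ CoveredByNwd Λ Unit ↔ OmegaStarCoveredByNwd Λ)) := by
  refine ⟨fun I Λ hI hΛ => ⟨nonempty_random I, coveredBy_random hI hΛ⟩,
    fun I Ξ hΞ p => not_covered hΞ p, fun hCH l hl I Λ hI hΛ p => ?_,
    fun Λ p => ⟨coveredBy_ground Λ p, coveredByNwd_ground Λ p⟩⟩
  have h1 : 𝔡 ≤ ℵ₁ := d_le_continuum.trans hCH.le
  have h2 : (ℵ_ 1 : Cardinal.{0}) < ℵ_ 2 := aleph_lt_aleph.2 (by norm_num)
  have h3 : (ℵ_ 2 : Cardinal.{0}) ≤ ℵ_ l := aleph_le_aleph.2 (by exact_mod_cast hl)
  have h4 : p ∈ CoveredBy Λ (Random I) := coveredBy_random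
    (by rw [hI]; exact (h1.trans_lt h2).trans_le h3) (by rw [hΛ]; exact h1.trans_lt h2) p
  exact ⟨covered_of_coveredBy h4, h4⟩

end Pool.Agent.Results.MP_deb3c6_lc.FewPSets
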